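import Pool.Agent.Helper64.DT.Stmts
import Pool.Agent.Helper14.CT.HER

/-! Module HR2 (MP_866009_co): the clique conditions pass to induced subgraphs. -/

set_option autoImplicit false

namespace Pool.Agent.Helper64.DT

open Pool.Agent.Helper64.CT
open Pool.Agent.Helper64.HG (Ovl Model Circ IC HellyCircle ChordModel)

/-- a clique lies in a maximal clique -/
theorem hr2_ext {V : Type} [Finite V] (G : SimpleGraph V) (K : Set V)
    (hK : ∀ x ∈ K, ∀ y ∈ K, x ≠ y → G.Adj x y) : ∃ Q : Set V, K ⊆ Q ∧ MaxC G Q := by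
  obtain ⟨P, hP⟩ : ∃ P : Set (Set V), P = {Q | K ⊆ Q ∧ ∀ x ∈ Q, ∀ y ∈ Q, x ≠ y → G.Adj x y} :=
    ⟨_, rfl⟩
  have hPfin : P.Finite := Set.toFinite _
  have hPne : P.Nonempty := ⟨K, by rw [hP]; exact ⟨le_refl _, hK⟩⟩
  obtain ⟨Q, hQ⟩ := hPfin.exists_maximal hPne
  have hQP : Q ∈ P := hQ.prop
  have hQP' := hQP
  rw [hP] at hQP'
  obtain ⟨h1, h2⟩ := hQP'
  refine ⟨Q, h1, h2, ?_⟩
  intro z hz
  have h3 : insert z Q ∈ P := by
    rw [hP]
    refine ⟨h1.trans (Set.subset_insert _ _), ?_⟩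
    intro x hx y hy hxy
    rcases Set.mem_insert_iff.mp hx with hx | hx
    · rcases Set.mem_insert_iff.mp hy with hy | hy
      · exact absurd (hx.trans hy.symm) hxy
      · rw [hx]
        exact hz y hy (fun e => hxy (hx.trans e.symm))
    · rcases Set.mem_insert_iff.mp hy with hy | hy
      · rw [hy]
        exact (hz x hx (fun e => hxy (e.trans hy.symm))).symm
      · exact h2 x hx y hy hxy
  exact hQ.2 h3 (Set.subset_insert _ _) (Set.mem_insert _ _)

theorem st_HR2 : ST_HR2 := by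
  intro V _ G S hS hall Q' hQ'
  have hK : ∀ x ∈ (Subtype.val '' Q' : Set V), ∀ y ∈ (Subtype.val '' Q' : Set V), x ≠ y →
      G.Adj x y := by
    rintro x ⟨a, ha, rfl⟩ y ⟨b, hb, rfl⟩ hab
    have h := hQ'.1 a ha b hb (fun e => hab (congrArg Subtype.val e))
    simpa using h
  obtain ⟨Q, hKQ, hQ⟩ := hr2_ext G _ hK
  have hmem : ∀ a : S, a ∈ Q' → a.1 ∈ Q := fun a ha => hKQ ⟨a, ha, rfl⟩
  have hback : ∀ a : S, a.1 ∈ Q → a ∈ Q' := by
    intro a ha
    refine hQ'.2 a ?_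
    intro x hx hxa
    have h := hQ.1 a.1 ha x.1 (hmem x hx) (fun e => hxa (Subtype.ext e.symm))
    simpa using h
  obtain ⟨θ, σ, t, hinj, hprop⟩ := hall Q hQ
  refine ⟨fun y => θ y.1, fun y => σ y.1, fun y u => t y.1 u.1, ?_, ?_⟩
  · intro a ha b hb hab
    exact Subtype.ext (hinj (hmem a ha) (hmem b hb) hab)
  · intro y hy
    obtain ⟨⟨hp1, hp2⟩, hp3⟩ := hprop y.1 (hmem y hy)
    refine ⟨⟨fun a b h => hp1 _ _ (her_comp h), fun a b h => hp2 _ _ (her_conf hS h)⟩, ?_⟩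
    intro x hx hxy u hxu hu
    exact hp3 x.1 (hmem x hx) (fun e => hxy (Subtype.ext e)) u.1 (by simpa using hxu)
      (fun e => hu (hback u e))

end Pool.Agent.Helper64.DT
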